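import Pool.Agent.Q211.ZQ.D

/-!
# Countable products of compact Hausdorff quasi-metrizable spaces without choice

In every model of Zermelo set theory (so in every model of ZF): if every countable product of
compact metrizable spaces is metrizable, then every countable product of compact Hausdorff
quasi-metrizable spaces is quasi-metrizable.
-/

namespace Pool.Agent.Results.MP_5db68c_lc.CountableProducts

open FirstOrder FirstOrder.Language
open Pool.Agent.Helper672.Plain (LSet Zermelo)
open Pool.Agent.Q211.QMet

universe u

theorem result (M : Type u) [LSet.Structure M] [Zermelo M]
    (h : CountableProductsCompactMetrizable M) : CountableProductsCompactQuasiMetrizable M :=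
  products h

end Pool.Agent.Results.MP_5db68c_lc.CountableProducts
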